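import Pool.Agent.N262.FX.Final

/-!
# MP_220175_an: a perfect dynamo which is not a fast dynamo

The flux conjecture for kinematic dynamos on the torus is false: there is an admissible
(time-periodic, divergence-free, `L^∞_t W^{1,∞}_x`) velocity field on `𝕋³` which is a perfect
dynamo (`Γ(ψ) > 0` for some smooth `ψ`) and not a fast dynamo.
-/

open MeasureTheory Set Filter Topology
open H459R3.NS Pool.Agent.N262.FX

namespace Pool.Agent.Results.MP_220175_an.PerfectNotFast

/-- There is an admissible velocity field on `𝕋³` which is a perfect dynamo and is not a fast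
dynamo. -/
theorem result : ∃ u : ℝ → V → V, Admissible u ∧ PerfectDynamo u ∧ ¬ FastDynamo u := by
  obtain ⟨W₀, W₁, hW⟩ := exists_cellFields
  obtain ⟨g₀, h0⟩ := Pool.Agent.TH811.SPD.exists_flow hW.sp0
  obtain ⟨g₁, h1⟩ := Pool.Agent.TH811.SPD.exists_flow hW.sp1
  obtain ⟨S, hS, hnf⟩ := Sys.exists_S ⟨W₀, W₁, g₀, g₁, hW, h0, h1⟩
  exact ⟨_, Sys.uu_admissible _ S,
    Sys.perfect (fun X σ hσ h2 h3 h4 h5 => horseshoe hW h0 h1 X σ hσ h2 h3 h4 h5) hS, hnf⟩

end Pool.Agent.Results.MP_220175_an.PerfectNotFast
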